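import Pool.Agent.V5helper84.SL.Stm
import Pool.Agent.W539.Ker.Lef
import Pool.Agent.Y163.GeoA

/-!
# Project SL, job ISO: isomorphic polarized varieties
-/

open CategoryTheory AlgebraicGeometry

set_option autoImplicit false

universe u v

namespace Pool.Agent.V5helper98.SL

open Pool.Agent.H914 Pool.Agent.H914.VarClass Pool.Agent.H914.VarClass.Obj
  Pool.Agent.H914.WeilCohomology Pool.Agent.H281R3.HT Pool.Agent.W539.Ker
  Pool.Agent.V5helper84.SL
open Pool.Agent.Y163 (prod_hom_ext)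

variable {k : Type u} [Field k] {𝒱 : VarClass k} {ops : CycleOps 𝒱}
  {W : WeilCohomology.{u, v} ops} {X Y Z X' Y' : 𝒱.Obj}

/-- Products of isomorphisms. -/
noncomputable def prodIso (e : X ≅ X') (f : Y ≅ Y') : X.prod Y ≅ X'.prod Y' where
  hom := Obj.lift (fst X Y ≫ e.hom) (snd X Y ≫ f.hom)
  inv := Obj.lift (fst X' Y' ≫ e.inv) (snd X' Y' ≫ f.inv)
  hom_inv_id := by
    apply prod_hom_ext
    · rw [Category.assoc, Obj.lift_fst, ← Category.assoc, Obj.lift_fst, Category.assoc,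
        e.hom_inv_id, Category.comp_id, Category.id_comp]
    · rw [Category.assoc, Obj.lift_snd, ← Category.assoc, Obj.lift_snd, Category.assoc,
        f.hom_inv_id, Category.comp_id, Category.id_comp]
  inv_hom_id := by
    apply prod_hom_ext
    · rw [Category.assoc, Obj.lift_fst, ← Category.assoc, Obj.lift_fst, Category.assoc,
        e.inv_hom_id, Category.comp_id, Category.id_comp]
    · rw [Category.assoc, Obj.lift_snd, ← Category.assoc, Obj.lift_snd, Category.assoc,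
        f.inv_hom_id, Category.comp_id, Category.id_comp]

/-- The associativity isomorphism. -/
noncomputable def assocIso (X Y Z : 𝒱.Obj) : (X.prod Y).prod Z ≅ X.prod (Y.prod Z) where
  hom := Obj.lift (fst (X.prod Y) Z ≫ fst X Y)
    (Obj.lift (fst (X.prod Y) Z ≫ snd X Y) (snd (X.prod Y) Z))
  inv := Obj.lift (Obj.lift (fst X (Y.prod Z)) (snd X (Y.prod Z) ≫ fst Y Z))
    (snd X (Y.prod Z) ≫ snd Y Z)
  hom_inv_id := by
    apply prod_hom_ext
    · rw [Category.assoc, Obj.lift_fst, Category.id_comp]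
      apply prod_hom_ext
      · rw [Category.assoc, Obj.lift_fst, Obj.lift_fst]
      · rw [Category.assoc, Obj.lift_snd, ← Category.assoc, Obj.lift_snd, Obj.lift_fst]
    · rw [Category.assoc, Obj.lift_snd, Category.id_comp, ← Category.assoc, Obj.lift_snd,
        Obj.lift_snd]
  inv_hom_id := by
    apply prod_hom_ext
    · rw [Category.assoc, Obj.lift_fst, Category.id_comp, ← Category.assoc, Obj.lift_fst,
        Obj.lift_fst]
    · rw [Category.assoc, Obj.lift_snd, Category.id_comp]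
      apply prod_hom_ext
      · rw [Category.assoc, Obj.lift_fst, ← Category.assoc, Obj.lift_fst, Obj.lift_snd]
      · rw [Category.assoc, Obj.lift_snd, Obj.lift_snd]

/-! ### The relation `PIso` -/

theorem pRefl (P : Polarized 𝒱) : PIso W P P := by
  refine ⟨rfl, Iso.refl _, ?_, fun y => ?_⟩
  · rw [Iso.refl_hom, W.map_id]
  · rw [Iso.refl_hom, W.map_id]

theorem pEq {P Q : Polarized 𝒱} (h : P = Q) : PIso W P Q := by
  subst h
  exact pRefl P

theorem pSymm {P Q : Polarized 𝒱} (h : PIso W P Q) : PIso W Q P := by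
  obtain ⟨hd, e, h1, h2⟩ := h
  refine ⟨hd.symm, e.symm, ?_, fun y => ?_⟩
  · rw [Iso.symm_hom, ← h1, ← W.map_comp, e.inv_hom_id, W.map_id]
  · rw [Iso.symm_hom, ← h2, ← W.map_comp, e.hom_inv_id, W.map_id]

theorem pTrans {P Q R : Polarized 𝒱} (h : PIso W P Q) (h' : PIso W Q R) : PIso W P R := by
  obtain ⟨hd, e, h1, h2⟩ := h
  obtain ⟨hd', f, h1', h2'⟩ := h'
  refine ⟨hd.trans hd', e ≪≫ f, ?_, fun y => ?_⟩
  · rw [Iso.trans_hom, W.map_comp, h1', h1]
  · rw [Iso.trans_hom, W.map_comp, h2, h2']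

theorem pProd {P P' Q Q' : Polarized 𝒱} (h : PIso W P P') (h' : PIso W Q Q') :
    PIso W (P.prod ops Q) (P'.prod ops Q') := by
  obtain ⟨hd, e, h1, h2⟩ := h
  obtain ⟨hd', f, h1', h2'⟩ := h'
  have k1 : (prodIso e f).hom ≫ fst P'.X Q'.X = fst P.X Q.X ≫ e.hom := Obj.lift_fst _ _
  have k2 : (prodIso e f).hom ≫ snd P'.X Q'.X = snd P.X Q.X ≫ f.hom := Obj.lift_snd _ _
  refine ⟨?_, prodIso e f, ?_, ?_⟩
  · change P.X.dim + Q.X.dim = P'.X.dim + Q'.X.dim
    rw [hd, hd']
  · change W.map (prodIso e f).hom (W.cl (P'.X.prod Q'.X)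
        (ops.pull (fst P'.X Q'.X) P'.D + ops.pull (snd P'.X Q'.X) Q'.D)) =
      W.cl (P.X.prod Q.X) (ops.pull (fst P.X Q.X) P.D + ops.pull (snd P.X Q.X) Q.D)
    rw [map_add, map_add, map_add, W.cl_pull, W.cl_pull, W.cl_pull, W.cl_pull, ← W.map_comp,
      ← W.map_comp, k1, k2, W.map_comp, W.map_comp, h1, h1']
  · intro y
    change W.tr (P.X.prod Q.X) (W.map (prodIso e f).hom y) = W.tr (P'.X.prod Q'.X) y
    refine W.kunneth_induction (X := P'.X) (Y := Q'.X)
      (p := fun y => W.tr (P.X.prod Q.X) (W.map (prodIso e f).hom y) =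
        W.tr (P'.X.prod Q'.X) y) ?_ ?_ y
    · intro a b ha hb
      rw [map_add, map_add, map_add, ha, hb]
    · intro i j a _ b _
      rw [map_mul (W.map (prodIso e f).hom), ← W.map_comp, ← W.map_comp, k1, k2, W.map_comp,
        W.map_comp, W.tr_prod, W.tr_prod, h2, h2']

theorem pAssoc (P Q R : Polarized 𝒱) :
    PIso W ((P.prod ops Q).prod ops R) (P.prod ops (Q.prod ops R)) := by
  set e := assocIso P.X Q.X R.X with he
  have k1 : e.hom ≫ fst P.X (Q.X.prod R.X) = fst (P.X.prod Q.X) R.X ≫ fst P.X Q.X :=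
    Obj.lift_fst _ _
  have k2 : e.hom ≫ snd P.X (Q.X.prod R.X) =
      Obj.lift (fst (P.X.prod Q.X) R.X ≫ snd P.X Q.X) (snd (P.X.prod Q.X) R.X) :=
    Obj.lift_snd _ _
  have k3 : e.hom ≫ (snd P.X (Q.X.prod R.X) ≫ fst Q.X R.X) =
      fst (P.X.prod Q.X) R.X ≫ snd P.X Q.X := by
    rw [← Category.assoc, k2, Obj.lift_fst]
  have k4 : e.hom ≫ (snd P.X (Q.X.prod R.X) ≫ snd Q.X R.X) = snd (P.X.prod Q.X) R.X := by
    rw [← Category.assoc, k2, Obj.lift_snd]
  refine ⟨?_, e, ?_, ?_⟩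
  · change P.X.dim + Q.X.dim + R.X.dim = P.X.dim + (Q.X.dim + R.X.dim)
    rw [add_assoc]
  · change W.map e.hom (W.cl (P.X.prod (Q.X.prod R.X)) (ops.pull (fst P.X (Q.X.prod R.X)) P.D +
        ops.pull (snd P.X (Q.X.prod R.X)) (ops.pull (fst Q.X R.X) Q.D +
          ops.pull (snd Q.X R.X) R.D))) =
      W.cl ((P.X.prod Q.X).prod R.X) (ops.pull (fst (P.X.prod Q.X) R.X)
        (ops.pull (fst P.X Q.X) P.D + ops.pull (snd P.X Q.X) Q.D) +
          ops.pull (snd (P.X.prod Q.X) R.X) R.D)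
    rw [map_add (W.cl (P.X.prod (Q.X.prod R.X))), map_add (W.cl ((P.X.prod Q.X).prod R.X)),
      W.cl_pull, W.cl_pull, W.cl_pull, W.cl_pull, map_add (W.cl (Q.X.prod R.X)),
      map_add (W.cl (P.X.prod Q.X)), W.cl_pull, W.cl_pull, W.cl_pull, W.cl_pull,
      map_add (W.map (snd P.X (Q.X.prod R.X))), map_add (W.map (fst (P.X.prod Q.X) R.X)),
      map_add (W.map e.hom), map_add (W.map e.hom)]
    simp only [← W.map_comp]
    rw [k1, k3, k4, add_assoc]
  · intro y
    change W.tr ((P.X.prod Q.X).prod R.X) (W.map e.hom y) = W.tr (P.X.prod (Q.X.prod R.X)) y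
    refine W.kunneth_induction (X := P.X) (Y := Q.X.prod R.X)
      (p := fun y => W.tr ((P.X.prod Q.X).prod R.X) (W.map e.hom y) =
        W.tr (P.X.prod (Q.X.prod R.X)) y) ?_ ?_ y
    · intro a b ha hb
      rw [map_add, map_add, map_add, ha, hb]
    · intro i j a _ b _
      refine W.kunneth_induction (X := Q.X) (Y := R.X)
        (p := fun b => W.tr ((P.X.prod Q.X).prod R.X) (W.map e.hom
            (W.map (fst P.X (Q.X.prod R.X)) a * W.map (snd P.X (Q.X.prod R.X)) b)) =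
          W.tr (P.X.prod (Q.X.prod R.X))
            (W.map (fst P.X (Q.X.prod R.X)) a * W.map (snd P.X (Q.X.prod R.X)) b)) ?_ ?_ b
      · intro c d hc hd
        rw [map_add, mul_add, map_add, map_add, map_add, hc, hd]
      · intro i' j' c _ d _
        rw [W.tr_prod, W.tr_prod, map_mul (W.map (snd P.X (Q.X.prod R.X))),
          map_mul (W.map e.hom), map_mul (W.map e.hom)]
        simp only [← W.map_comp]
        rw [k1, k3, k4, W.map_comp, W.map_comp, ← mul_assoc, ← map_mul, W.tr_prod, W.tr_prod,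
          mul_assoc]

theorem pIndex (P : Polarized 𝒱) : ∀ i j : ℕ,
    PIso W ((ppw ops P i).prod ops (ppw ops P j)) (ppw ops P (i + 1 + j))
  | 0, j => by
    have h : 0 + 1 + j = j + 1 := by ring
    rw [h]
    exact pRefl _
  | i + 1, j => by
    have h : i + 1 + 1 + j = (i + 1 + j) + 1 := by ring
    rw [h]
    change PIso W ((P.prod ops (ppw ops P i)).prod ops (ppw ops P j))
      (P.prod ops (ppw ops P (i + 1 + j)))
    exact pTrans (pAssoc _ _ _) (pProd (pRefl _) (pIndex P i j))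

theorem pPow (P : Polarized 𝒱) (m : ℕ) : ∀ j : ℕ, ∃ N, N + 1 = (m + 1) * (j + 1) ∧
    PIso W (ppw ops (ppw ops P m) j) (ppw ops P N)
  | 0 => ⟨m, by ring, pRefl _⟩
  | j + 1 => by
    obtain ⟨N, hN, h⟩ := pPow P m j
    refine ⟨m + 1 + N, by rw [add_assoc, hN]; ring, ?_⟩
    change PIso W ((ppw ops P m).prod ops (ppw ops (ppw ops P m) j)) (ppw ops P (m + 1 + N))
    exact pTrans (pProd (pRefl _) h) (pIndex P m N)

/-! ### Families -/

theorem hasFamily_iso {D : X.Cycles} {E : Y.Cycles} (hD : X.IsCyc 1 D) (hE : Y.IsCyc 1 E)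
    (hd : X.dim = Y.dim) (e : X ⟶ Y) (hcl : W.map e (W.cl Y E) = W.cl X D)
    (htr : ∀ y, W.tr X (W.map e y) = W.tr Y y) {n : ℕ} (hn : 2 * n ≤ X.dim) {s : ℚ} {r : ℕ}
    (h : HasFamily W Y E n s r) : HasFamily W X D n s r := by
  obtain ⟨z, hz, hpos, horth⟩ := h
  have hpow : ∀ (m : ℕ) (x : W.H Y),
      ((LinearMap.mulLeft W.K (W.cl X D)) ^ m) (W.map e x) =
        W.map e (((LinearMap.mulLeft W.K (W.cl Y E)) ^ m) x) := by
    intro m
    induction m with
    | zero => intro x; simp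
    | succ m ih =>
      intro x
      rw [pow_succ, Module.End.mul_apply, LinearMap.mulLeft_apply, ← hcl, ← map_mul, hcl, ih,
        pow_succ, Module.End.mul_apply, LinearMap.mulLeft_apply]
  have hprim : ∀ i, Primitive W X D n (ops.pull e (z i)) := by
    intro i
    refine ⟨ops.pull_mem _ (hz i).1, ?_⟩
    have h1 := (hz i).2
    rw [cl_divPow] at h1
    rw [cl_divPow, W.cl_pull, hpow, hd, h1, map_zero]
  have hpair : ∀ i j, pairing ops X D n (ops.pull e (z i)) (ops.pull e (z j)) =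
      pairing ops Y E n (z i) (z j) := by
    intro i j
    have h1 : ((pairing ops X D n (ops.pull e (z i)) (ops.pull e (z j)) : ℚ) : W.K) =
        ((pairing ops Y E n (z i) (z j) : ℚ) : W.K) := by
      rw [pairing_cast hD hn (hprim i).1 (hprim j).1,
        pairing_cast hE (by omega) (hz i).1 (hz j).1, W.cl_pull, W.cl_pull, hpow,
        ← map_mul, htr, hd]
    exact_mod_cast h1
  exact ⟨fun i => ops.pull e (z i), hprim, fun i => by rw [hpair]; exact hpos i,
    fun i j hij => by rw [hpair]; exact horth i j hij⟩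

theorem t_ISO : S_ISO.{u, v} := by
  intro k _ 𝒱 ops W
  refine ⟨?_, ?_, ?_⟩
  · intro P Q hP hQ h n hn s r
    obtain ⟨hd, e, h1, h2⟩ := h
    obtain ⟨_, e', h1', h2'⟩ := pSymm (W := W) ⟨hd, e, h1, h2⟩
    exact ⟨fun h => hasFamily_iso hQ hP hd.symm e'.hom h1' h2' (by omega) h,
      fun h => hasFamily_iso hP hQ hd e.hom h1 h2 hn h⟩
  · intro P _ m j
    obtain ⟨N, hN, h⟩ := pPow (W := W) P m j
    exact ⟨N, hN, h, fun i => pTrans (pProd h (pRefl _)) (pIndex P N i)⟩
  · intro P _ i j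
    exact pIndex P i j

end Pool.Agent.V5helper98.SL
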